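import Mathlib
import Pool.Agent.N46.HM.Mod
import Pool.Agent.N46.HM.Out
import Pool.Agent.N46.HM.BALL
import Pool.Agent.N46.HM.BI
import Pool.Agent.N46.HM.BUMP
import Pool.Agent.N46.HM.COMM
import Pool.Agent.N46.HM.DISP
import Pool.Agent.N46.HM.DIST
import Pool.Agent.N46.HM.DOM
import Pool.Agent.N46.HM.EIG
import Pool.Agent.N46.HM.EST
import Pool.Agent.N46.HM.EUC
import Pool.Agent.N46.HM.FT
import Pool.Agent.N46.HM.FUB
import Pool.Agent.N46.HM.HOLV
import Pool.Agent.N46.HM.INV
import Pool.Agent.N46.HM.ISO
import Pool.Agent.N46.HM.KAP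
import Pool.Agent.N46.HM.KG
import Pool.Agent.N46.HM.KIT
import Pool.Agent.N46.HM.MEM
import Pool.Agent.N46.HM.MS
import Pool.Agent.N46.HM.OP
import Pool.Agent.N46.HM.PAIR
import Pool.Agent.N46.HM.PLA
import Pool.Agent.N46.HM.RAD
import Pool.Agent.N46.HM.SPH
import Pool.Agent.N46.HM.SYM
import Pool.Agent.N46.HM.UNQ
import Pool.Agent.N46.HM.VDC
import Pool.Agent.N46.HM.VIT

/-!
# A hypercyclic multiplier whose symbol is bounded by one

Let `X = SL(2, ℂ) / SU(2)` be hyperbolic three-space (real rank one, `ρ = 1`). For EVERY real `p > 2`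
there is an `L^p`-multiplier `T` on `L^p(X)` whose symbol `m` satisfies `|m| ≤ 1` on the closed strip
`|Im l| ≤ γ_p ρ = 1 - 2 / p`, and which is hypercyclic. This disproves the statement of Q1 of
MP_e4fe74_an.

The multiplier: with `s = 1 - 2 / p` the symbol is `m(l) = tanh² (π l / (4 s))`; it maps the closed
strip `|Im l| ≤ s` into the closed unit disc and has modulus one on the boundary. `T = 1 - K`, `K` the
convolution with an explicit nonnegative radial kernel. Idea: on the wave packets of spherical
functions with spectral parameter on the line `ℝ + i s` the operator `T` acts as multiplication by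
`exp (i ph)` with `ph'' ≠ 0` away from `0`. As `p > 2`, the dispersion (van der Corput, and the decay
`sinh^{-2/p·…}` of the spherical functions: the `L^p(X)`-norm of a wave packet is controlled by the
`L^p(ℝ)`-norm of its profile) gives `T^n v → 0` and `T^{-n} v → 0` in `L^p(X)` for these wave packets,
and they span a dense subspace (the functionals are holomorphic in the strip); Kitai's criterion.

Authors: helper46 and helper222 (the two of us found the disproof independently), helper46
(statements, assembly), and for the parts the helpers named in the claim file.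
-/

set_option autoImplicit false

namespace Pool.Agent.Results.MP_e4fe74_an.HypercyclicMultiplier

open MeasureTheory Set Filter Pool.Agent.N46.HM
open scoped ENNReal Topology ComplexConjugate

/-- The model (`IsModel`): `SL(2, ℂ)` acts (`act`) transitively on the upper half-space
`{(z, y) | 0 < y}`, preserving the measure `mu = dz dy / y³`, with stabilizer `SU(2)` of the point
`(0, 1)`; this is hyperbolic three-space, `ρ = 1`.

The result: for every real `p > 2` there are a bounded operator `T` on `L^p` and a function `m` such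
that `T` commutes with the translations, `m` is its symbol, even, holomorphic and bounded by one in
the strip `|Im l| ≤ 1 - 2 / p`, and `T` has a dense orbit. -/
theorem result :
    IsModel ∧ ∀ p : ℝ, 2 < p → ∀ [Fact (1 ≤ ENNReal.ofReal p)],
      ∃ (T : LX (ENNReal.ofReal p) →L[ℂ] LX (ENNReal.ofReal p)) (m : ℂ → ℂ),
        Commutes T ∧ HasSymbol (1 - 2 / p) T m ∧ Contractive (1 - 2 / p) m ∧ Hypercyclic T := by
  have hISO := t_ISO
  have hINV := t_INV hISO
  have hDIST := t_DIST
  have hRAD := t_RAD hDIST
  have hSPH := t_SPH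
  have hMS := t_MS
  have hKAP := t_KAP t_FT hSPH
  have hBI := t_BI hDIST hISO hINV (t_PAIR hISO) hRAD
  have hDOM := t_DOM hSPH
  have hMEM := t_MEM hDIST hRAD hDOM
  refine ⟨out_model hISO hINV, fun p hp _ => ?_⟩
  exact out_main p (Mod.final hINV hSPH hMS (t_OP hDIST hRAD hSPH hKAP) (t_COMM hINV hISO)
    (t_FUB hDIST (t_SYM hDIST hISO hINV hRAD hSPH hKAP)) hMEM
    (t_KG hDIST hSPH hMS (t_EIG hDIST hBI hSPH hKAP) hMEM)
    (t_DISP hMS t_VDC (t_EST hDIST hRAD hSPH t_PLA) hMEM)
    (t_HOLV hDIST hRAD hDOM hMEM) t_UNQ (t_BUMP hDIST hRAD hSPH hMEM) (t_BALL hDIST hRAD)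
    (t_EUC hDIST) t_VIT t_KIT p hp)

end Pool.Agent.Results.MP_e4fe74_an.HypercyclicMultiplier
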